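import Pool.Agent.H24U.Stm

/-!
# CORE (minimal degree at least three; adapted from `Helper611.UF.Core`)

Let every cluster of `c` be infinite. Let `L` be the set of the points without two neighbours of
the other colour, `Z` a maximal independent Borel subset of `L`, and `c'` the colouring `c` flipped
on `Z`. The largest core of `c'` meets every component.
-/

set_option autoImplicit false

namespace Pool.Agent.H24U.Core

open MeasureTheory Set Pool.Agent.Helper611.UF
open Pool.Agent.Helper611.UF.Core (two_meas Lay lay_anti core_inter step)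

theorem main (hENUM : S_ENUM) (hEX : S_EX) (hBALL : S_BALL) (hMIS : S_MIS) (hPATH : S_PATH) :
    H24U.S_CORE := by
  classical
  intro V _ _ G Δ hG h3 c hc hinf
  obtain ⟨w, hw, -⟩ := hENUM V G Δ hG
  have hfin : ∀ x, (G.neighborSet x).Finite := fun x => Set.finite_of_encard_le_coe (hG.deg x)
  have hLm : MeasurableSet {x | Two G Set.univ c x}ᶜ :=
    (two_meas hEX hG.adj hw MeasurableSet.univ hc).compl
  obtain ⟨Z, hZL, hZm, hZind, hZmax⟩ := hMIS V G Δ hG 1 _ hLm
  obtain ⟨c', hc'⟩ : ∃ c' : V → Bool, ∀ x, c' x = if x ∈ Z then !c x else c x := ⟨_, fun _ => rfl⟩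
  have hflip : ∀ x ∈ Z, c' x = !c x := fun x hx => by rw [hc', if_pos hx]
  have hnot : ∀ x, x ∉ Z → c' x = c x := fun x hx => by rw [hc', if_neg hx]
  have hc'm : Measurable c' := by
    have h1 : c' = fun x => if x ∈ Z then !c x else c x := funext hc'
    rw [h1]
    exact Measurable.ite hZm ((measurable_of_countable fun b : Bool => !b).comp hc) hc
  have hLay : ∀ n, MeasurableSet (Lay G c' n) := by
    intro n
    induction n with
    | zero => exact MeasurableSet.univ
    | succ n ih => exact ih.inter (two_meas hEX hG.adj hw ih hc'm)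
  refine ⟨⋂ n, Lay G c' n, c', MeasurableSet.iInter hLay, hc'm, core_inter G c' hfin, ?_⟩
  -- long alternating paths
  obtain ⟨hbd⟩ : Nonempty (∀ x, ((Alt G c).neighborSet x).encard ≤ Δ) :=
    ⟨fun x => (Set.encard_le_encard fun y hy => hy.1).trans (hG.deg x)⟩
  have hpath : ∀ z ∈ Z, ∀ u, G.Adj z u → c u = c z → ∀ K, ∃ v : ℕ → V, v 0 = u ∧
      (∀ i < K, G.Adj (v i) (v (i + 1)) ∧ c (v i) ≠ c (v (i + 1))) ∧
      (∀ i, i + 2 ≤ K → v i ≠ v (i + 2)) ∧ ∀ i < K, v i ∉ Z := by
    intro z hz u hzu hcu K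
    obtain ⟨M, hM⟩ := hBALL V (Alt G c) Δ hbd K
    have hball : {y | (Alt G c).Reachable u y ∧ (Alt G c).dist u y ≤ K}.Finite :=
      Set.finite_of_encard_le_coe (hM u)
    obtain ⟨y, hy1, hy2⟩ := ((hinf u).sdiff hball).nonempty
    have hy3 : K < (Alt G c).dist u y := by
      by_contra hcon
      exact hy2 ⟨hy1, not_lt.1 hcon⟩
    obtain ⟨-, v, hv0, -, hv1, hv2⟩ := hPATH V (Alt G c) u y hy1
    have hne : ∀ i, i + 2 ≤ K → v i ≠ v (i + 2) := by
      intro i hi h
      have e1 := (hv2 i (by omega)).2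
      have e2 := (hv2 (i + 2) (by omega)).2
      rw [h, e2] at e1
      omega
    refine ⟨v, hv0, fun i hi => hv1 i (by omega), hne, ?_⟩
    intro i hi hiZ
    rcases i with _ | i
    · have hne' : z ≠ v 0 := by rw [hv0]; exact hzu.ne
      have hadj : G.Adj z (v 0) := by rw [hv0]; exact hzu
      have := hZind z hz (v 0) hiZ hne' hadj.reachable
      rw [SimpleGraph.dist_eq_one_iff_adj.2 hadj] at this
      omega
    · refine hZL hiZ ⟨v i, v (i + 2), hne i (by omega), (hv1 i (by omega)).1.symm,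
        (hv1 (i + 1) (by omega)).1, mem_univ _, mem_univ _, (hv1 i (by omega)).2,
        (hv1 (i + 1) (by omega)).2.symm⟩
  -- two neighbours of the same colour
  have htwo : ∀ z ∈ Z, ∃ u₁ u₂, u₁ ≠ u₂ ∧ G.Adj z u₁ ∧ G.Adj z u₂ ∧ c u₁ = c z ∧ c u₂ = c z := by
    intro z hz
    obtain ⟨a, b, d, hab, had, hbd', ha, hb, hd⟩ := three_nb (h3 z)
    have hz' : ∀ x y, x ≠ y → G.Adj z x → G.Adj z y → c x = c z ∨ c y = c z := by
      intro x y hxy hx hy
      by_contra hcon
      push Not at hcon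
      exact hZL hz ⟨x, y, hxy, hx, hy, mem_univ _, mem_univ _, hcon.1, hcon.2⟩
    by_cases hca : c a = c z
    · rcases hz' b d hbd' hb hd with h | h
      · exact ⟨a, b, hab, ha, hb, hca, h⟩
      · exact ⟨a, d, had, ha, hd, hca, h⟩
    · exact ⟨b, d, hbd', hb, hd, (hz' a b hab ha hb).resolve_left hca,
        (hz' a d had ha hd).resolve_left hca⟩
  -- points of `Z` are in the core
  have hZX : ∀ z ∈ Z, ∀ m, z ∈ Lay G c' m := by
    intro z hz m
    obtain ⟨u₁, u₂, hu, ha₁, ha₂, hc₁, hc₂⟩ := htwo z hz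
    obtain ⟨v₁, p1, p2, p3, p4⟩ := hpath z hz u₁ ha₁ hc₁ (m + 1)
    obtain ⟨v₂, q1, q2, q3, q4⟩ := hpath z hz u₂ ha₂ hc₂ (m + 1)
    subst p1
    subst q1
    have key : ∀ n, n ≤ m → z ∈ Lay G c' n ∧ (∀ j, j + n < m + 1 → v₁ j ∈ Lay G c' n) ∧
        ∀ j, j + n < m + 1 → v₂ j ∈ Lay G c' n := by
      intro n
      induction n with
      | zero => exact fun _ => ⟨mem_univ _, fun _ _ => mem_univ _, fun _ _ => mem_univ _⟩
      | succ n ih =>
        intro hn
        obtain ⟨i1, i2, i3⟩ := ih (by omega)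
        refine ⟨⟨i1, v₁ 0, v₂ 0, hu, ha₁, ha₂, i2 0 (by omega), i3 0 (by omega), ?_, ?_⟩,
          step hflip hnot hz ha₁ hc₁ p2 p3 p4 i1 i2, step hflip hnot hz ha₂ hc₂ q2 q3 q4 i1 i3⟩
        · rw [hnot _ (p4 0 (by omega)), hflip z hz, hc₁]
          cases c z <;> simp
        · rw [hnot _ (q4 0 (by omega)), hflip z hz, hc₂]
          cases c z <;> simp
    exact (key m le_rfl).1
  intro x
  by_cases hx : ∃ l, G.Reachable x l ∧ l ∈ {x | Two G Set.univ c x}ᶜ
  · obtain ⟨l, hl1, hl2⟩ := hx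
    obtain ⟨z, hz1, hz2, -⟩ := hZmax l hl2
    exact ⟨z, mem_iInter.2 (hZX z hz1), hl1.trans hz2⟩
  · have hx' : ∀ l, G.Reachable x l → Two G Set.univ c l := by
      intro l hl
      by_contra hcon
      exact hx ⟨l, hl, hcon⟩
    have hxc : ∀ l, G.Reachable x l → c' l = c l := fun l hl =>
      hnot l fun hlZ => hZL hlZ (hx' l hl)
    have key : ∀ n, ∀ l, G.Reachable x l → l ∈ Lay G c' n := by
      intro n
      induction n with
      | zero => exact fun _ _ => mem_univ _
      | succ n ih =>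
        intro l hl
        obtain ⟨a, b, h1, h2, h4, -, -, h5, h6⟩ := hx' l hl
        have ra := hl.trans h2.reachable
        have rb := hl.trans h4.reachable
        refine ⟨ih l hl, a, b, h1, h2, h4, ih a ra, ih b rb, ?_, ?_⟩
        · rw [hxc a ra, hxc l hl]; exact h5
        · rw [hxc b rb, hxc l hl]; exact h6
    exact ⟨x, mem_iInter.2 fun n => key n x (SimpleGraph.Reachable.refl _),
      SimpleGraph.Reachable.refl _⟩

end Pool.Agent.H24U.Core
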