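import Pool.Agent.H24U.Stm

/-!
# FOR: the forest (minimal degree at least three)

A graph without finite cores has no even cycles, so every edge is on at most one cycle. From every
cycle one edge is removed: the cycles are the components of a graph of darts.
-/

set_option autoImplicit false

namespace Pool.Agent.H24U.For

open MeasureTheory Pool.Agent.Helper611.UF
open Pool.Agent.Helper611.UF.For (NG NG_le NG_iff cyc_two Off seq_reach Off_reach core_of_path)

section comb

variable {V : Type} (G : SimpleGraph V)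

/-- three neighbours of `x` are not connected off `x` -/
lemma three (hPATH : S_PATH)
    (hS : ∀ S : Set V, S.Finite → S.Nonempty → ∀ c : V → Bool, ¬ Core G S c)
    {x y1 y2 y3 : V} (a1 : G.Adj x y1) (a2 : G.Adj x y2) (a3 : G.Adj x y3)
    (h12 : y1 ≠ y2) (h13 : y1 ≠ y3) (h23 : y2 ≠ y3)
    (q12 : (Off G x).Reachable y1 y2) (q13 : (Off G x).Reachable y1 y3) : False := by
  classical
  let c : V → Bool := fun z => decide (Even ((Off G x).dist y1 z))
  have alt : ∀ z, (Off G x).Reachable y1 z → (Alt (Off G x) c).Reachable y1 z := by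
    intro z hz
    obtain ⟨_, v, h0, hn, hadj, hd⟩ := hPATH V (Off G x) y1 z hz
    have h1 : ∀ i < (Off G x).dist y1 z, (Alt (Off G x) c).Adj (v i) (v (i + 1)) := by
      intro i hi
      refine ⟨hadj i hi, ?_⟩
      show decide (Even ((Off G x).dist y1 (v i))) ≠ decide (Even ((Off G x).dist y1 (v (i + 1))))
      rw [(hd i (by omega)).2, (hd (i + 1) (by omega)).2]
      intro he
      have : Even i ↔ Even (i + 1) := by
        constructor
        · intro h; rw [decide_eq_true h] at he; exact of_decide_eq_true he.symm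
        · intro h; rw [decide_eq_true h] at he; exact of_decide_eq_true he
      rw [Nat.even_add_one] at this
      tauto
    have h2 := seq_reach h1 (Nat.zero_le _) le_rfl
    rwa [h0, hn] at h2
  have b2 := alt y2 q12
  have b3 := alt y3 q13
  have hpig : c y1 = c y2 ∨ c y1 = c y3 ∨ c y2 = c y3 := by
    cases c y1 <;> cases c y2 <;> cases c y3 <;> simp
  rcases hpig with h | h | h
  · exact core_of_path G hPATH hS a1 a2 h12 h b2
  · exact core_of_path G hPATH hS a1 a3 h13 h b3
  · exact core_of_path G hPATH hS a2 a3 h23 h (b2.symm.trans b3)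

/-- `y` and `z` are the neighbours of `x` on a cycle -/
def Cn (x y z : V) : Prop := G.Adj x y ∧ G.Adj x z ∧ y ≠ z ∧ (Off G x).Reachable y z

variable {G}

lemma Cn.symm {x y z : V} (h : Cn G x y z) : Cn G x z y :=
  ⟨h.2.1, h.1, h.2.2.1.symm, h.2.2.2.symm⟩

lemma Cn.uniq (hPATH : S_PATH)
    (hS : ∀ S : Set V, S.Finite → S.Nonempty → ∀ c : V → Bool, ¬ Core G S c)
    {x y z z' : V} (h : Cn G x y z) (h' : Cn G x y z') : z = z' := by
  by_contra hne
  exact three G hPATH hS h.1 h.2.1 h'.2.1 h.2.2.1 h'.2.2.1 hne h.2.2.2 h'.2.2.2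

lemma Cn.of_NG (hPATH : S_PATH) {x y : V} (h : (NG G).Adj x y) : ∃ z, Cn G x y z := by
  obtain ⟨z, hz1, hz2, hz3⟩ := Off_reach G hPATH h
  exact ⟨z, h.1, hz2, hz1.symm, hz3.symm⟩

lemma Cn.NG {x y z : V} (h : Cn G x y z) : (NG G).Adj x y := by
  refine ⟨h.1, ?_⟩
  have h1 : (G.deleteEdges {s(x, y)}).Adj x z := by
    rw [SimpleGraph.deleteEdges_adj]
    refine ⟨h.2.1, fun he => ?_⟩
    rw [Set.mem_singleton_iff, Sym2.eq_iff] at he
    rcases he with ⟨_, he⟩ | ⟨he, _⟩
    · exact h.2.2.1 he.symm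
    · exact h.1.ne he
  refine h1.reachable.trans (SimpleGraph.Reachable.mono ?_ h.2.2.2.symm)
  intro a b hab
  rw [SimpleGraph.deleteEdges_adj]
  refine ⟨hab.1, fun he => ?_⟩
  rw [Set.mem_singleton_iff, Sym2.eq_iff] at he
  rcases he with ⟨he, _⟩ | ⟨_, he⟩
  · exact hab.2.1 he
  · exact hab.2.2 he

/-- two edges of a cycle at a point are consecutive -/
lemma Cn.of_cycle (hPATH : S_PATH) {u : V} {p : G.Walk u u} (hp : p.IsCycle) {x y z : V}
    (hy : s(x, y) ∈ p.edges) (hz : s(x, z) ∈ p.edges) (hyz : y ≠ z) : Cn G x y z := by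
  classical
  have hadj : ∀ {a b : V}, s(a, b) ∈ p.edges → G.Adj a b := fun h => p.adj_of_mem_edges h
  refine ⟨hadj hy, hadj hz, hyz, ?_⟩
  obtain ⟨H, hH⟩ : ∃ H : SimpleGraph V, H = SimpleGraph.fromEdgeSet {e | e ∈ p.edges} := ⟨_, rfl⟩
  have hHa : ∀ a b, H.Adj a b ↔ s(a, b) ∈ p.edges := by
    intro a b
    rw [hH, SimpleGraph.fromEdgeSet_adj]
    exact ⟨fun h => h.1, fun h => ⟨h, (hadj h).ne⟩⟩
  have hHG : H ≤ G := fun a b h => hadj ((hHa a b).1 h)
  have htr : ∀ e ∈ p.edges, e ∈ H.edgeSet := by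
    intro e he
    induction e using Sym2.inductionOn with
    | _ a b => exact (hHa a b).2 he
  have hN : (Pool.Agent.Helper611.UF.For.NG H).Adj x y := by
    refine (NG_iff H).2 ⟨u, p.transfer H htr, hp.transfer htr, ?_⟩
    rw [SimpleGraph.Walk.edges_transfer]
    exact hy
  obtain ⟨t, ht1, ht2, ht3⟩ := Off_reach H hPATH hN
  have h2 := hp.ncard_neighborSet_toSubgraph_eq_two (p.fst_mem_support_of_mem_edges hy)
  have hmem : ∀ b, b ∈ p.toSubgraph.neighborSet x ↔ s(x, b) ∈ p.edges := by
    intro b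
    rw [← SimpleGraph.Walk.mem_edges_toSubgraph, SimpleGraph.Subgraph.mem_edgeSet]
    rfl
  have htz : t = z := by
    obtain ⟨a, b, hab, hs⟩ := Set.ncard_eq_two.1 h2
    have m1 : y ∈ ({a, b} : Set V) := by rw [← hs, hmem]; exact hy
    have m2 : z ∈ ({a, b} : Set V) := by rw [← hs, hmem]; exact hz
    have m3 : t ∈ ({a, b} : Set V) := by rw [← hs, hmem]; exact (hHa _ _).1 ht2
    simp only [Set.mem_insert_iff, Set.mem_singleton_iff] at m1 m2 m3
    rcases m1 with rfl | rfl <;> rcases m2 with rfl | rfl <;> rcases m3 with rfl | rfl <;>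
      first | rfl | exact absurd rfl hyz | exact absurd rfl ht1
  rw [htz] at ht3
  exact (SimpleGraph.Reachable.mono (show Off H x ≤ Off G x from fun a b h => ⟨hHG h.1, h.2⟩) ht3).symm

variable (G)

/-- the graph of the darts: the components of the darts of non-bridges are the cycles -/
def DG : SimpleGraph (V × V) where
  Adj p q := (G.Adj p.1 p.2 ∧ q = (p.2, p.1)) ∨ (p.1 = q.1 ∧ Cn G p.1 p.2 q.2)
  symm := ⟨by
    rintro ⟨x, y⟩ ⟨z, w⟩ (⟨h1, h2⟩ | ⟨h1, h2⟩)
    · left
      simp only [Prod.mk.injEq] at h2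
      obtain ⟨rfl, rfl⟩ := h2
      exact ⟨h1.symm, rfl⟩
    · right
      simp only at h1
      subst h1
      exact ⟨rfl, h2.symm⟩⟩
  loopless := ⟨by
    rintro ⟨x, y⟩ (⟨h1, h2⟩ | ⟨h1, h2⟩)
    · simp only [Prod.mk.injEq] at h2
      exact h1.ne h2.1
    · exact h2.2.2.1 rfl⟩

variable (r : V × V → ℝ)

/-- the removed darts -/
def Rm (p : V × V) : Prop := (NG G).Adj p.1 p.2 ∧ ∀ q, (DG G).Reachable p q → r p ≤ r q

/-- the removed edges -/
def RR (x y : V) : Prop := Rm G r (x, y) ∨ Rm G r (y, x)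

variable {G r}

lemma RR.symm {x y : V} (h : RR G r x y) : RR G r y x := Or.symm h

lemma RR.NG {x y : V} (h : RR G r x y) : (NG G).Adj x y := by
  rcases h with h | h
  · exact h.1
  · exact h.1.symm

lemma rev {x y : V} (h : G.Adj x y) : (DG G).Reachable (x, y) (y, x) :=
  SimpleGraph.Adj.reachable (Or.inl ⟨h, rfl⟩)

lemma Cn.reach {x y z : V} (h : Cn G x y z) : (DG G).Reachable (x, y) (x, z) :=
  SimpleGraph.Adj.reachable (Or.inr ⟨rfl, h⟩)

lemma Rm.uniq (hr : Function.Injective r) {p q : V × V} (hp : Rm G r p) (hq : Rm G r q)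
    (h : (DG G).Reachable p q) : p = q :=
  hr (le_antisymm (hp.2 q h) (hq.2 p h.symm))

lemma RR.uniq (hr : Function.Injective r) {a b c d : V} (h : RR G r a b) (h' : RR G r c d)
    (hh : (DG G).Reachable (a, b) (c, d)) : (a = c ∧ b = d) ∨ (a = d ∧ b = c) := by
  have e1 := rev h.NG.1
  have e2 := rev h'.NG.1
  rcases h with h | h <;> rcases h' with h' | h'
  · have := Rm.uniq hr h h' hh
    simp only [Prod.mk.injEq] at this
    exact Or.inl this
  · have := Rm.uniq hr h h' (hh.trans e2)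
    simp only [Prod.mk.injEq] at this
    exact Or.inr this
  · have := Rm.uniq hr h h' (e1.symm.trans hh)
    simp only [Prod.mk.injEq] at this
    exact Or.inr ⟨this.2, this.1⟩
  · have := Rm.uniq hr h h' (e1.symm.trans (hh.trans e2))
    simp only [Prod.mk.injEq] at this
    exact Or.inl ⟨this.2, this.1⟩

variable (G r)

/-- the forest -/
def FF : SimpleGraph V where
  Adj x y := G.Adj x y ∧ ¬ RR G r x y
  symm := ⟨fun _ _ h => ⟨h.1.symm, fun h' => h.2 h'.symm⟩⟩
  loopless := ⟨fun _ h => G.loopless.irrefl _ h.1⟩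

lemma FF_le : FF G r ≤ G := fun _ _ h => h.1

lemma FF_acyclic (hPATH : S_PATH)
    (hS : ∀ S : Set V, S.Finite → S.Nonempty → ∀ c : V → Bool, ¬ Core G S c) :
    (FF G r).IsAcyclic := by
  classical
  intro v p hp
  have hpG : (p.mapLe (FF_le G r)).IsCycle := hp.mapLe (FF_le G r)
  have hed : (p.mapLe (FF_le G r)).edges = p.edges := by
    rw [SimpleGraph.Walk.edges_mapLe_eq_edges]
  obtain ⟨D, hD⟩ : ∃ D : Finset (V × V), ∀ q, q ∈ D ↔ s(q.1, q.2) ∈ p.edges := by
    refine ⟨(p.support.toFinset ×ˢ p.support.toFinset).filter fun q => s(q.1, q.2) ∈ p.edges, ?_⟩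
    intro q
    rw [Finset.mem_filter, Finset.mem_product, List.mem_toFinset, List.mem_toFinset]
    exact ⟨fun h => h.2, fun h => ⟨⟨p.fst_mem_support_of_mem_edges h,
      p.snd_mem_support_of_mem_edges h⟩, h⟩⟩
  obtain ⟨a, b, -, ha, -⟩ := cyc_two hp p.start_mem_support
  have hne : D.Nonempty := ⟨(v, a), (hD _).2 ha⟩
  obtain ⟨⟨x, y⟩, hxy, hmin⟩ := Finset.exists_min_image D r hne
  have hstep : ∀ q q', q ∈ D → (DG G).Adj q q' → q' ∈ D := by
    rintro ⟨s, t⟩ ⟨s', t'⟩ hq (⟨h1, h2⟩ | ⟨h1, h2⟩)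
    · rw [h2, hD]
      rw [hD] at hq
      rw [Sym2.eq_swap]
      exact hq
    · simp only at h1 h2
      subst h1
      rw [hD] at hq ⊢
      simp only at hq ⊢
      obtain ⟨a, b, hab, ha, hb⟩ := cyc_two hp (p.fst_mem_support_of_mem_edges hq)
      obtain ⟨z, hz, hzt⟩ : ∃ z, s(s, z) ∈ p.edges ∧ t ≠ z := by
        by_cases hta : t = a
        · exact ⟨b, hb, fun h => hab (hta.symm.trans h)⟩
        · exact ⟨a, ha, hta⟩
      have h3 : Cn G s t z := Cn.of_cycle hPATH hpG (by rw [hed]; exact hq) (by rw [hed]; exact hz) hzt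
      rw [h2.uniq hPATH hS h3]
      exact hz
  have hreach : ∀ q, (DG G).Reachable (x, y) q → q ∈ D := by
    intro q hq
    rw [SimpleGraph.reachable_iff_reflTransGen] at hq
    induction hq with
    | refl => exact hxy
    | tail _ h ih => exact hstep _ _ ih h
  have hE := (hD _).1 hxy
  have hRm : Rm G r (x, y) := by
    refine ⟨(NG_iff G).2 ⟨v, _, hpG, by rw [hed]; exact hE⟩, fun q hq => hmin q (hreach q hq)⟩
  exact (p.adj_of_mem_edges hE).2 (Or.inl hRm)

lemma partner (hPATH : S_PATH) (hr : Function.Injective r) {x a : V} (h : RR G r x a) :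
    ∃ b, Cn G x a b ∧ (FF G r).Adj x b := by
  obtain ⟨b, hb⟩ := Cn.of_NG hPATH h.NG
  refine ⟨b, hb, hb.2.1, fun h' => ?_⟩
  rcases h.uniq hr h' hb.reach with ⟨_, h2⟩ | ⟨h2, _⟩
  · exact hb.2.2.1 h2
  · exact hb.2.1.ne h2

lemma FF_two (hPATH : S_PATH)
    (hS : ∀ S : Set V, S.Finite → S.Nonempty → ∀ c : V → Bool, ¬ Core G S c)
    (hr : Function.Injective r) (hfin : ∀ x, (G.neighborSet x).Finite)
    (h3 : ∀ x, 3 ≤ (G.neighborSet x).ncard) (x : V) : 2 ≤ ((FF G r).neighborSet x).ncard := by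
  classical
  have hK : ((FF G r).neighborSet x).Finite := (hfin x).subset fun y hy => hy.1
  have hR : {a | RR G r x a}.Finite := (hfin x).subset fun y hy => (RR.NG hy).1
  have hun : G.neighborSet x = (FF G r).neighborSet x ∪ {a | RR G r x a} := by
    ext y
    constructor
    · intro hy
      by_cases h : RR G r x y
      · exact Or.inr h
      · exact Or.inl ⟨hy, h⟩
    · rintro (h | h)
      · exact h.1
      · exact h.NG.1
  have hle : {a | RR G r x a}.ncard ≤ ((FF G r).neighborSet x).ncard := by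
    choose! f hf1 hf2 using fun a (h : RR G r x a) => partner G r hPATH hr h
    refine Set.ncard_le_ncard_of_injOn f (fun a ha => hf2 a ha) ?_ hK
    intro a ha b hb hab
    have e1 := (hf1 a ha).symm
    have e2 := (hf1 b hb).symm
    rw [hab] at e1
    exact e1.uniq hPATH hS e2
  have h1 := h3 x
  rw [hun] at h1
  have h2 := Set.ncard_union_le ((FF G r).neighborSet x) {a | RR G r x a}
  omega

lemma FF_three (hPATH : S_PATH)
    (hS : ∀ S : Set V, S.Finite → S.Nonempty → ∀ c : V → Bool, ¬ Core G S c)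
    (hr : Function.Injective r) (hfin : ∀ x, (G.neighborSet x).Finite)
    (h3 : ∀ x, 3 ≤ (G.neighborSet x).ncard) (x : V) :
    3 ≤ ((FF G r).neighborSet x).ncard ∨
      ∃ y, (FF G r).Adj x y ∧ 3 ≤ ((FF G r).neighborSet y).ncard := by
  classical
  have hK : ∀ x, ((FF G r).neighborSet x).Finite := fun x => (hfin x).subset fun y hy => hy.1
  by_cases hx : ∀ a, ¬ RR G r x a
  · left
    have : (FF G r).neighborSet x = G.neighborSet x := by
      ext y
      exact ⟨fun h => h.1, fun h => ⟨h, hx y⟩⟩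
    rw [this]
    exact h3 x
  · right
    push Not at hx
    obtain ⟨a, ha⟩ := hx
    obtain ⟨b, hb, hxb⟩ := partner G r hPATH hr ha
    refine ⟨b, hxb, ?_⟩
    -- the second edge at `b` on the same cycle
    obtain ⟨y, hy⟩ := Cn.of_NG hPATH (hb.symm.NG.symm)
    have hby : (FF G r).Adj b y := by
      refine ⟨hy.2.1, fun h' => ?_⟩
      rcases ha.uniq hr h' (hb.reach.trans ((rev hb.2.1).trans hy.reach)) with ⟨h2, _⟩ | ⟨_, h2⟩
      · exact hb.2.1.ne h2
      · exact hb.2.2.1 h2
    have three' : ∀ w, w ≠ x → w ≠ y → (FF G r).Adj b w → 3 ≤ ((FF G r).neighborSet b).ncard := by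
      intro w h1 h2 h3'
      have hsub : ({x, y, w} : Set V) ⊆ (FF G r).neighborSet b := by
        rintro z (rfl | rfl | rfl)
        · exact hxb.symm
        · exact hby
        · exact h3'
      have hc : ({x, y, w} : Set V).ncard = 3 :=
        Set.ncard_eq_three.2 ⟨x, y, w, hy.2.2.1, h1.symm, h2.symm, rfl⟩
      rw [← hc]
      exact Set.ncard_le_ncard hsub (hK b)
    -- a third neighbour
    obtain ⟨w, hw, hwx, hwy⟩ : ∃ w, G.Adj b w ∧ w ≠ x ∧ w ≠ y := by
      obtain ⟨p, q, t, h1, h2, h4, h5, h6, h7⟩ := three_nb (h3 b)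
      by_contra hcon
      push Not at hcon
      have k : ∀ w, G.Adj b w → w = x ∨ w = y := by
        intro w hw
        by_cases h : w = x
        · exact Or.inl h
        · exact Or.inr (hcon w hw h)
      rcases k p h5 with rfl | rfl <;> rcases k q h6 with rfl | rfl <;> rcases k t h7 with rfl | rfl <;>
        first | exact h1 rfl | exact h2 rfl | exact h4 rfl
    by_cases hRw : RR G r b w
    · obtain ⟨w', hw', hbw'⟩ := partner G r hPATH hr hRw
      refine three' w' ?_ ?_ hbw'
      · rintro rfl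
        exact hwy (hw'.symm.uniq hPATH hS hy)
      · rintro rfl
        exact hwx (hw'.symm.uniq hPATH hS hy.symm)
    · exact three' w hwx hwy ⟨hw, hRw⟩

end comb

/-- FOR -/
theorem main (hENUM : S_ENUM) (hEX : S_EX) (hREACH : S_REACH) (hPATH : S_PATH) : H24U.S_FOR := by
  intro V _ _ G Δ hG h3 hS
  obtain ⟨w, hw, _⟩ := hENUM V G Δ hG
  have hfin : ∀ x, (G.neighborSet x).Finite := fun x => Set.finite_of_encard_le_coe (hG.deg x)
  have hE : Equivalence G.Reachable := ⟨fun _ => SimpleGraph.Reachable.refl _,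
    fun h => h.symm, fun h h' => h.trans h'⟩
  have hr := (measurableEmbedding_embeddingReal V).injective
  have hrm := measurable_embeddingReal V
  have heq : ∀ {Z : Type} [MeasurableSpace Z] {f g : Z → V}, Measurable f → Measurable g →
      MeasurableSet {z | f z = g z} := by
    intro Z _ f g hf hg
    have h1 : {z | f z = g z} = {z | embeddingReal V (f z) = embeddingReal V (g z)} := by
      ext z
      constructor
      · intro h
        show embeddingReal V (f z) = embeddingReal V (g z)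
        rw [show f z = g z from h]
      · intro h
        exact hr h
    rw [h1]
    exact measurableSet_eq_fun (hrm.comp hf) (hrm.comp hg)
  -- the graph of the non-bridges is Borel
  have hN1 : MeasurableSet {p : V × V | (G.deleteEdges {s(p.1, p.2)}).Reachable p.1 p.2} := by
    refine (hREACH V G.Reachable w hE hw (V × V) (fun p => G.deleteEdges {s(p.1, p.2)}) ?_ ?_
      Prod.fst Prod.snd measurable_fst measurable_snd).1
    · have h1 : {p : (V × V) × V × V | (G.deleteEdges {s(p.1.1, p.1.2)}).Adj p.2.1 p.2.2} =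
          {p : (V × V) × V × V | G.Adj p.2.1 p.2.2} ∩
          (({p : (V × V) × V × V | p.2.1 = p.1.1} ∩ {p : (V × V) × V × V | p.2.2 = p.1.2}) ∪
          ({p : (V × V) × V × V | p.2.1 = p.1.2} ∩ {p : (V × V) × V × V | p.2.2 = p.1.1}))ᶜ := by
        ext p
        show (G.deleteEdges {s(p.1.1, p.1.2)}).Adj p.2.1 p.2.2 ↔ G.Adj p.2.1 p.2.2 ∧
          ¬ ((p.2.1 = p.1.1 ∧ p.2.2 = p.1.2) ∨ (p.2.1 = p.1.2 ∧ p.2.2 = p.1.1))
        rw [SimpleGraph.deleteEdges_adj, Set.mem_singleton_iff, Sym2.eq_iff]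
      rw [h1]
      refine MeasurableSet.inter ?_ (MeasurableSet.compl ?_)
      · exact measurable_snd hG.adj
      · exact ((heq (by fun_prop) (by fun_prop)).inter (heq (by fun_prop) (by fun_prop))).union
          ((heq (by fun_prop) (by fun_prop)).inter (heq (by fun_prop) (by fun_prop)))
    · intro z x y h
      rw [SimpleGraph.deleteEdges_adj] at h
      exact h.1.reachable
  have hN : Bor2 (NG G).Adj := MeasurableSet.inter hG.adj hN1
  -- reachability off a point is Borel
  have hOff : MeasurableSet {t : V × V × V | (Off G t.1).Reachable t.2.1 t.2.2} := by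
    refine (hREACH V G.Reachable w hE hw (V × V × V) (fun t => Off G t.1) ?_ ?_
      (fun t => t.2.1) (fun t => t.2.2) (by fun_prop) (by fun_prop)).1
    · have h1 : {p : (V × V × V) × V × V | (Off G p.1.1).Adj p.2.1 p.2.2} =
          {p : (V × V × V) × V × V | G.Adj p.2.1 p.2.2} ∩
          ({p : (V × V × V) × V × V | p.2.1 = p.1.1}ᶜ ∩
            {p : (V × V × V) × V × V | p.2.2 = p.1.1}ᶜ) := by
        ext p
        exact Iff.rfl
      rw [h1]
      exact (measurable_snd hG.adj).inter ((heq (by fun_prop) (by fun_prop)).compl.inter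
        (heq (by fun_prop) (by fun_prop)).compl)
    · intro z x y h
      exact h.1.reachable
  -- the graph of the darts is Borel
  have hDGa : Bor2 (DG G).Adj := by
    have h1 : {p : (V × V) × (V × V) | (DG G).Adj p.1 p.2} =
        ({p : (V × V) × (V × V) | G.Adj p.1.1 p.1.2} ∩
          ({p : (V × V) × (V × V) | p.2.1 = p.1.2} ∩ {p : (V × V) × (V × V) | p.2.2 = p.1.1})) ∪
        ({p : (V × V) × (V × V) | p.1.1 = p.2.1} ∩
          ({p : (V × V) × (V × V) | G.Adj p.1.1 p.1.2} ∩
          ({p : (V × V) × (V × V) | G.Adj p.1.1 p.2.2} ∩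
          ({p : (V × V) × (V × V) | p.1.2 = p.2.2}ᶜ ∩
          {p : (V × V) × (V × V) | (Off G p.1.1).Reachable p.1.2 p.2.2})))) := by
      ext ⟨⟨x, y⟩, z, t⟩
      show ((G.Adj x y ∧ (z, t) = (y, x)) ∨ (x = z ∧ G.Adj x y ∧ G.Adj x t ∧ y ≠ t ∧
        (Off G x).Reachable y t)) ↔ (G.Adj x y ∧ z = y ∧ t = x) ∨ (x = z ∧ G.Adj x y ∧ G.Adj x t ∧
        ¬ y = t ∧ (Off G x).Reachable y t)
      rw [Prod.mk.injEq]
    unfold Bor2
    rw [h1]
    refine MeasurableSet.union ?_ ?_
    · exact (measurable_fst hG.adj).inter ((heq (by fun_prop) (by fun_prop)).inter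
        (heq (by fun_prop) (by fun_prop)))
    · refine (heq (by fun_prop) (by fun_prop)).inter ((measurable_fst hG.adj).inter
        (MeasurableSet.inter ?_ ((heq (by fun_prop) (by fun_prop)).compl.inter ?_)))
      · exact (by fun_prop : Measurable (fun p : (V × V) × (V × V) => (p.1.1, p.2.2))) hG.adj
      · exact (by fun_prop : Measurable (fun p : (V × V) × (V × V) => (p.1.1, p.1.2, p.2.2))) hOff
  have hDG : BG (DG G) (Δ + 1) := by
    refine ⟨hDGa, fun p => ?_⟩
    have hsub : (DG G).neighborSet p ⊆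
        insert (p.2, p.1) ((fun y => (p.1, y)) '' G.neighborSet p.1) := by
      rintro ⟨z, t⟩ (⟨_, h⟩ | ⟨h, h'⟩)
      · exact Or.inl h
      · simp only at h h'
        subst h
        exact Or.inr ⟨t, h'.2.1, rfl⟩
    calc ((DG G).neighborSet p).encard ≤ _ := Set.encard_le_encard hsub
      _ ≤ ((fun y => (p.1, y)) '' G.neighborSet p.1).encard + 1 := Set.encard_insert_le _ _
      _ ≤ (G.neighborSet p.1).encard + 1 := by
          gcongr
          exact Set.encard_image_le _ _
      _ ≤ (Δ : ℕ∞) + 1 := by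
          gcongr
          exact hG.deg p.1
      _ = ((Δ + 1 : ℕ) : ℕ∞) := by push_cast; rfl
  obtain ⟨w', hw', _⟩ := hENUM (V × V) (DG G) (Δ + 1) hDG
  have hr2 := (measurableEmbedding_embeddingReal (V × V)).injective
  have hrm2 := measurable_embeddingReal (V × V)
  have hmin := (hEX (V × V) (DG G).Reachable w' hw' (V × V) id measurable_id
    (fun p q => embeddingReal (V × V) p ≤ embeddingReal (V × V) q)
    (measurableSet_le (hrm2.comp measurable_fst) (hrm2.comp measurable_snd))).2
  have hRm : MeasurableSet {p : V × V | Rm G (embeddingReal (V × V)) p} := hN.inter hmin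
  have hRR : Bor2 (RR G (embeddingReal (V × V))) :=
    MeasurableSet.union hRm (measurable_swap hRm)
  refine ⟨FF G (embeddingReal (V × V)), FF_le G _, ?_, FF_acyclic G _ hPATH hS,
    FF_two G _ hPATH hS hr2 hfin h3, FF_three G _ hPATH hS hr2 hfin h3⟩
  exact MeasurableSet.inter hG.adj (MeasurableSet.compl hRR)

end Pool.Agent.H24U.For
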