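import Pool.Agent.H24U.Two

/-!
# Vertices of degree at most two

Finite graphs are attached to the vertices of degree at most two, such that the colourings of the
larger graph in which every vertex has two neighbours of the other colour restrict to colourings
in which the vertices of degree one and two have a neighbour of the other colour. At a vertex of
degree one the graph is `K_{3,3}` without an edge, both ends of this edge being joined to the vertex;
they have different colours.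
-/

set_option autoImplicit false

namespace Pool.Agent.H24U

open MeasureTheory Set Pool.Agent.Helper611.UF

/-- `K_{3,3}` without an edge on `{2, 3, 4}` and `{5, 6, 7}` -/
def kk (i j : Fin 12) : Bool :=
  (2 ≤ i && i ≤ 4 && 5 ≤ j && j ≤ 7 && !(i == 2 && j == 5)) ||
    (2 ≤ j && j ≤ 4 && 5 ≤ i && i ≤ 7 && !(j == 2 && i == 5))

/-- the finite graphs; the last three classes are degree one, degree two and larger degree -/
def fib (d : Fin 4) (i j : Fin 12) : Bool :=
  if d = 0 then i != j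
  else if d = 1 then
    (i == 0 && (j == 2 || j == 5)) || (j == 0 && (i == 2 || i == 5)) || kk i j ||
      (i != j && (i == 1 || 8 ≤ i) && (j == 1 || 8 ≤ j))
  else if d = 2 then
    (i == 0 && j == 1) || (j == 0 && i == 1) || (i == 1 && (j == 2 || j == 5)) ||
      (j == 1 && (i == 2 || i == 5)) || kk i j || (i != j && 8 ≤ i && 8 ≤ j)
  else i != 0 && j != 0 && i != j

theorem fib_symm : ∀ d i j, fib d i j = fib d j i := by decide +kernel

theorem fib_irr : ∀ d i, fib d i i = false := by decide +kernel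

theorem fib_three : ∀ d : Fin 4, ∀ i : Fin 12, i ≠ 0 → ∃ a b c : Fin 12, a ≠ b ∧ a ≠ c ∧ b ≠ c ∧
    fib d i a = true ∧ fib d i b = true ∧ fib d i c = true := by decide +kernel

theorem fib_zero : ∀ j : Fin 12, fib 3 0 j = false := by decide +kernel

theorem fib_two : ∀ j : Fin 12, fib 2 0 j = true ↔ j = 1 := by decide +kernel

theorem fib_one : ∀ j : Fin 12, fib 1 0 j = true ↔ j = 2 ∨ j = 5 := by decide +kernel

theorem fib_12 : ∀ j : Fin 12, fib 1 2 j = true ↔ j = 0 ∨ j = 6 ∨ j = 7 := by decide +kernel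
theorem fib_15 : ∀ j : Fin 12, fib 1 5 j = true ↔ j = 0 ∨ j = 3 ∨ j = 4 := by decide +kernel
theorem fib_13 : ∀ j : Fin 12, fib 1 3 j = true ↔ j = 5 ∨ j = 6 ∨ j = 7 := by decide +kernel
theorem fib_14 : ∀ j : Fin 12, fib 1 4 j = true ↔ j = 5 ∨ j = 6 ∨ j = 7 := by decide +kernel
theorem fib_16 : ∀ j : Fin 12, fib 1 6 j = true ↔ j = 2 ∨ j = 3 ∨ j = 4 := by decide +kernel
theorem fib_17 : ∀ j : Fin 12, fib 1 7 j = true ↔ j = 2 ∨ j = 3 ∨ j = 4 := by decide +kernel

theorem bool_gadget : ∀ x2 x3 x4 x5 x6 x7 : Bool,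
    ¬ (x6 = x2 ∧ x7 = x2) → ¬ (x3 = x5 ∧ x4 = x5) →
    ¬ (x5 = x3 ∧ x6 = x3) → ¬ (x5 = x3 ∧ x7 = x3) → ¬ (x6 = x3 ∧ x7 = x3) →
    ¬ (x5 = x4 ∧ x6 = x4) → ¬ (x5 = x4 ∧ x7 = x4) → ¬ (x6 = x4 ∧ x7 = x4) →
    ¬ (x2 = x6 ∧ x3 = x6) → ¬ (x2 = x6 ∧ x4 = x6) → ¬ (x3 = x6 ∧ x4 = x6) →
    ¬ (x2 = x7 ∧ x3 = x7) → ¬ (x2 = x7 ∧ x4 = x7) → ¬ (x3 = x7 ∧ x4 = x7) → x2 ≠ x5 := by
  intro x2 x3 x4 x5 x6 x7
  cases x2 <;> cases x3 <;> cases x4 <;> cases x5 <;> cases x6 <;> cases x7 <;> simp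

/-- at most one of three neighbours has the same colour -/
theorem at_most {x : Fin 12 → Bool} {i a b c : Fin 12} {P : Fin 12 → Prop}
    (hP : ∀ j, P j ↔ j = a ∨ j = b ∨ j = c)
    (h : ∃ j k, j ≠ k ∧ P j ∧ P k ∧ x j ≠ x i ∧ x k ≠ x i) :
    ¬ (x a = x i ∧ x b = x i) ∧ ¬ (x a = x i ∧ x c = x i) ∧ ¬ (x b = x i ∧ x c = x i) := by
  obtain ⟨j, k, hjk, hj, hk, h1, h2⟩ := h
  rw [hP] at hj hk
  refine ⟨?_, ?_, ?_⟩ <;> rintro ⟨e1, e2⟩ <;>
    rcases hj with rfl | rfl | rfl <;> rcases hk with rfl | rfl | rfl <;>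
    first | exact hjk rfl | exact h1 e1 | exact h1 e2 | exact h2 e1 | exact h2 e2

theorem gadget (x : Fin 12 → Bool)
    (h : ∀ i : Fin 12, i ≠ 0 → ∃ j k, j ≠ k ∧ fib 1 i j = true ∧ fib 1 i k = true ∧
      x j ≠ x i ∧ x k ≠ x i) : x 2 ≠ x 5 := by
  have h2 := at_most fib_12 (h 2 (by decide))
  have h5 := at_most fib_15 (h 5 (by decide))
  have h3 := at_most fib_13 (h 3 (by decide))
  have h4 := at_most fib_14 (h 4 (by decide))
  have h6 := at_most fib_16 (h 6 (by decide))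
  have h7 := at_most fib_17 (h 7 (by decide))
  exact bool_gadget (x 2) (x 3) (x 4) (x 5) (x 6) (x 7) h2.2.2 h5.2.2 h3.1 h3.2.1 h3.2.2
    h4.1 h4.2.1 h4.2.2 h6.1 h6.2.1 h6.2.2 h7.1 h7.2.1 h7.2.2

/-- the graph with the finite graphs attached -/
def GG {V : Type} (G : SimpleGraph V) (cls : V → Fin 4) : SimpleGraph (V × Fin 12) where
  Adj p q := (p.2 = 0 ∧ q.2 = 0 ∧ G.Adj p.1 q.1) ∨ (p.1 = q.1 ∧ fib (cls p.1) p.2 q.2 = true)
  symm := ⟨by
    rintro p q (⟨h1, h2, h3⟩ | ⟨h1, h2⟩)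
    · exact Or.inl ⟨h2, h1, h3.symm⟩
    · exact Or.inr ⟨h1.symm, by rw [← h1, fib_symm]; exact h2⟩⟩
  loopless := ⟨by
    rintro p (⟨h1, h2, h3⟩ | ⟨h1, h2⟩)
    · exact h3.ne rfl
    · rw [fib_irr] at h2
      exact Bool.false_ne_true h2⟩

/-- The general theorem: a Borel colouring in which every vertex of degree at least three has two
neighbours of the other colour and every vertex of degree at least one has one. -/
theorem all {V : Type} [MeasurableSpace V] [StandardBorelSpace V] (G : SimpleGraph V) (Δ : ℕ)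
    (hG : BG G Δ) : ∃ c : V → Bool, Measurable c ∧
      (∀ x, (∃ y, G.Adj x y) → ∃ y, G.Adj x y ∧ c y ≠ c x) ∧
      ∀ x, (∃ y z t, y ≠ z ∧ y ≠ t ∧ z ≠ t ∧ G.Adj x y ∧ G.Adj x z ∧ G.Adj x t) →
        Two G univ c x := by
  classical
  obtain ⟨g, hg1, hg2, hg3⟩ := exists_nb hG
  have hr := (measurableEmbedding_embeddingReal V).injective
  have hrm := measurable_embeddingReal V
  have heq : ∀ {Z : Type} [MeasurableSpace Z] {f g : Z → V}, Measurable f → Measurable g →
      MeasurableSet {z | f z = g z} := by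
    intro Z _ f g hf hg
    have h1 : {z | f z = g z} = {z | embeddingReal V (f z) = embeddingReal V (g z)} := by
      ext z
      constructor
      · intro h
        show embeddingReal V (f z) = embeddingReal V (g z)
        rw [show f z = g z from h]
      · intro h
        exact hr h
    rw [h1]
    exact measurableSet_eq_fun (hrm.comp hf) (hrm.comp hg)
  have hadj : ∀ x y, G.Adj x y ↔ ∃ i, g i x = y ∧ g i x ≠ x := by
    intro x y
    constructor
    · intro h
      obtain ⟨i, hi⟩ := hg2 x y h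
      exact ⟨i, hi, by rw [hi]; exact h.ne'⟩
    · rintro ⟨i, rfl, h⟩
      exact (hg3 i x).resolve_left h
  -- the classes
  obtain ⟨P1, hP1⟩ : ∃ P1 : Set V, P1 = {x | ∃ y, G.Adj x y} := ⟨_, rfl⟩
  obtain ⟨P2, hP2⟩ : ∃ P2 : Set V, P2 = {x | ∃ y z, y ≠ z ∧ G.Adj x y ∧ G.Adj x z} := ⟨_, rfl⟩
  obtain ⟨P3, hP3⟩ : ∃ P3 : Set V, P3 = {x | ∃ y z t, y ≠ z ∧ y ≠ t ∧ z ≠ t ∧ G.Adj x y ∧
    G.Adj x z ∧ G.Adj x t} := ⟨_, rfl⟩
  have hne : ∀ i, MeasurableSet {x | g i x ≠ x} := fun i => (heq (hg1 i) measurable_id).compl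
  have hne2 : ∀ i j, MeasurableSet {x | g i x ≠ g j x} := fun i j => (heq (hg1 i) (hg1 j)).compl
  have m1 : MeasurableSet P1 := by
    have : P1 = ⋃ i, {x | g i x ≠ x} := by
      rw [hP1]
      ext x
      simp only [mem_ofPred_eq, mem_iUnion, hadj]
      constructor
      · rintro ⟨y, i, -, h⟩
        exact ⟨i, h⟩
      · rintro ⟨i, h⟩
        exact ⟨_, i, rfl, h⟩
    rw [this]
    exact MeasurableSet.iUnion hne
  have m2 : MeasurableSet P2 := by
    have : P2 = ⋃ i, ⋃ j, ({x | g i x ≠ g j x} ∩ ({x | g i x ≠ x} ∩ {x | g j x ≠ x})) := by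
      rw [hP2]
      ext x
      simp only [mem_ofPred_eq, mem_iUnion, mem_inter_iff, hadj]
      constructor
      · rintro ⟨y, z, hyz, ⟨i, rfl, h⟩, ⟨j, rfl, h'⟩⟩
        exact ⟨i, j, hyz, h, h'⟩
      · rintro ⟨i, j, h1, h2, h3⟩
        exact ⟨_, _, h1, ⟨i, rfl, h2⟩, ⟨j, rfl, h3⟩⟩
    rw [this]
    exact MeasurableSet.iUnion fun i => MeasurableSet.iUnion fun j =>
      (hne2 i j).inter ((hne i).inter (hne j))
  have m3 : MeasurableSet P3 := by
    have : P3 = ⋃ i, ⋃ j, ⋃ k, ({x | g i x ≠ g j x} ∩ ({x | g i x ≠ g k x} ∩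
        ({x | g j x ≠ g k x} ∩ ({x | g i x ≠ x} ∩ ({x | g j x ≠ x} ∩ {x | g k x ≠ x}))))) := by
      rw [hP3]
      ext x
      simp only [mem_ofPred_eq, mem_iUnion, mem_inter_iff, hadj]
      constructor
      · rintro ⟨y, z, t, h1, h2, h3, ⟨i, rfl, h4⟩, ⟨j, rfl, h5⟩, ⟨k, rfl, h6⟩⟩
        exact ⟨i, j, k, h1, h2, h3, h4, h5, h6⟩
      · rintro ⟨i, j, k, h1, h2, h3, h4, h5, h6⟩
        exact ⟨_, _, _, h1, h2, h3, ⟨i, rfl, h4⟩, ⟨j, rfl, h5⟩, ⟨k, rfl, h6⟩⟩
    rw [this]
    exact MeasurableSet.iUnion fun i => MeasurableSet.iUnion fun j => MeasurableSet.iUnion fun k =>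
      (hne2 i j).inter ((hne2 i k).inter ((hne2 j k).inter ((hne i).inter ((hne j).inter (hne k)))))
  obtain ⟨cls, hcls⟩ : ∃ cls : V → Fin 4, ∀ x, cls x = if x ∈ P3 then 3 else if x ∈ P2 then 2 else
    if x ∈ P1 then 1 else 0 := ⟨_, fun _ => rfl⟩
  have hclsm : Measurable cls := by
    rw [show cls = _ from funext hcls]
    exact Measurable.ite m3 measurable_const (Measurable.ite m2 measurable_const
      (Measurable.ite m1 measurable_const measurable_const))
  have h12 : P2 ⊆ P1 := by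
    rw [hP1, hP2]
    rintro x ⟨y, z, -, h, -⟩
    exact ⟨y, h⟩
  have h23 : P3 ⊆ P2 := by
    rw [hP2, hP3]
    rintro x ⟨y, z, t, h, -, -, h1, h2, -⟩
    exact ⟨y, z, h, h1, h2⟩
  have c3 : ∀ x, cls x = 3 ↔ x ∈ P3 := by
    intro x
    rw [hcls]
    split_ifs with h1 h2 h3 <;> simp [h1]
  have c2 : ∀ x, cls x = 2 → x ∈ P2 := by
    intro x hx
    by_contra hn
    rw [hcls, if_neg (fun h => hn (h23 h)), if_neg hn] at hx
    split_ifs at hx
    · exact absurd hx (by decide)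
    · exact absurd hx (by decide)
  have c1 : ∀ x, cls x = 1 → x ∈ P1 := by
    intro x hx
    by_contra hn
    rw [hcls, if_neg (fun h => hn (h12 (h23 h))), if_neg (fun h => hn (h12 h)), if_neg hn] at hx
    exact absurd hx (by decide)
  have c0 : ∀ x, x ∈ P1 → cls x ≠ 0 := by
    intro x hx
    rw [hcls]
    split_ifs with h1 h2 <;> simp
  -- the graph
  have hfin : ∀ x, (G.neighborSet x).Finite := fun x => Set.finite_of_encard_le_coe (hG.deg x)
  have hsub : ∀ p, (GG G cls).neighborSet p ⊆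
      ((fun w : V => (w, (0 : Fin 12))) '' G.neighborSet p.1) ∪
        ((fun j : Fin 12 => (p.1, j)) '' univ) := by
    rintro p ⟨q1, q2⟩ (⟨h1, h2, h3⟩ | ⟨h1, h2⟩)
    · left
      simp only at h2 h3
      rw [h2]
      exact ⟨q1, h3, rfl⟩
    · right
      simp only at h1
      rw [← h1]
      exact ⟨q2, mem_univ _, rfl⟩
  have hGm : Bor2 (GG G cls).Adj := by
    have h1 : {p : (V × Fin 12) × (V × Fin 12) | (GG G cls).Adj p.1 p.2} =
        ({p : (V × Fin 12) × (V × Fin 12) | p.1.2 = 0} ∩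
          ({p : (V × Fin 12) × (V × Fin 12) | p.2.2 = 0} ∩
            {p : (V × Fin 12) × (V × Fin 12) | G.Adj p.1.1 p.2.1})) ∪
        ({p : (V × Fin 12) × (V × Fin 12) | p.1.1 = p.2.1} ∩
          {p : (V × Fin 12) × (V × Fin 12) | fib (cls p.1.1) p.1.2 p.2.2 = true}) := rfl
    unfold Bor2
    rw [h1]
    have e1 : Measurable fun p : (V × Fin 12) × (V × Fin 12) => p.1.2 := by fun_prop
    have e2 : Measurable fun p : (V × Fin 12) × (V × Fin 12) => p.2.2 := by fun_prop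
    have e3 : Measurable fun p : (V × Fin 12) × (V × Fin 12) => (p.1.1, p.2.1) := by fun_prop
    have e4 : Measurable fun p : (V × Fin 12) × (V × Fin 12) => (cls p.1.1, p.1.2, p.2.2) :=
      (hclsm.comp (by fun_prop)).prodMk (e1.prodMk e2)
    refine MeasurableSet.union ?_ ?_
    · exact (e1 (measurableSet_singleton (0 : Fin 12))).inter
        ((e2 (measurableSet_singleton (0 : Fin 12))).inter (e3 hG.adj))
    · refine (heq (by fun_prop) (by fun_prop)).inter ?_
      have e5 : Measurable fun t : Fin 4 × Fin 12 × Fin 12 => fib t.1 t.2.1 t.2.2 :=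
        measurable_of_countable _
      exact (e5.comp e4) (measurableSet_singleton true)
  have hBG : BG (GG G cls) (Δ + 12) := by
    refine ⟨hGm, fun p => ?_⟩
    calc ((GG G cls).neighborSet p).encard ≤ _ := Set.encard_le_encard (hsub p)
      _ ≤ ((fun w : V => (w, (0 : Fin 12))) '' G.neighborSet p.1).encard +
          ((fun j : Fin 12 => (p.1, j)) '' univ).encard := Set.encard_union_le _ _
      _ ≤ (G.neighborSet p.1).encard + (univ : Set (Fin 12)).encard := by
          gcongr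
          · exact Set.encard_image_le _ _
          · exact Set.encard_image_le _ _
      _ ≤ (Δ : ℕ∞) + 12 := by
          gcongr
          · exact hG.deg p.1
          · rw [Set.encard_univ, ENat.card_eq_coe_fintype_card, Fintype.card_fin]
            rfl
      _ = ((Δ + 12 : ℕ) : ℕ∞) := by push_cast; rfl
  have hfin' : ∀ p, ((GG G cls).neighborSet p).Finite := fun p =>
    Set.finite_of_encard_le_coe (hBG.deg p)
  have hthree : ∀ p a b d, a ≠ b → a ≠ d → b ≠ d → (GG G cls).Adj p a → (GG G cls).Adj p b →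
      (GG G cls).Adj p d → 3 ≤ ((GG G cls).neighborSet p).ncard := by
    intro p a b d h1 h2 h3 h4 h5 h6
    have hs : ({a, b, d} : Set (V × Fin 12)) ⊆ (GG G cls).neighborSet p := by
      rintro z (rfl | rfl | rfl)
      · exact h4
      · exact h5
      · exact h6
    rw [← Set.ncard_eq_three.2 ⟨a, b, d, h1, h2, h3, rfl⟩]
    exact Set.ncard_le_ncard hs (hfin' p)
  have hdeg : ∀ p, 3 ≤ ((GG G cls).neighborSet p).ncard := by
    rintro ⟨v, i⟩
    by_cases hi : i = 0
    · subst hi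
      have hc : cls v = 0 ∨ cls v = 1 ∨ cls v = 2 ∨ cls v = 3 := by
        generalize cls v = d
        revert d
        decide
      rcases hc with h | h | h | h
      · refine hthree (v, 0) (v, 1) (v, 2) (v, 3) ?_ ?_ ?_ (Or.inr ⟨rfl, ?_⟩) (Or.inr ⟨rfl, ?_⟩)
          (Or.inr ⟨rfl, ?_⟩)
        · simp
        · simp
        · simp
        · simp only [h]; decide
        · simp only [h]; decide
        · simp only [h]; decide
      · have h1 := c1 v h
        rw [hP1] at h1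
        obtain ⟨y, hy⟩ := h1
        refine hthree (v, 0) (y, 0) (v, 2) (v, 5) ?_ ?_ ?_ (Or.inl ⟨rfl, rfl, hy⟩) (Or.inr ⟨rfl, ?_⟩)
          (Or.inr ⟨rfl, ?_⟩)
        · simp
        · simp
        · simp
        · simp only [h]; decide
        · simp only [h]; decide
      · have h1 := c2 v h
        rw [hP2] at h1
        obtain ⟨y, z, hyz, hy, hz⟩ := h1
        refine hthree (v, 0) (y, 0) (z, 0) (v, 1) ?_ ?_ ?_ (Or.inl ⟨rfl, rfl, hy⟩)
          (Or.inl ⟨rfl, rfl, hz⟩) (Or.inr ⟨rfl, ?_⟩)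
        · simp [hyz]
        · simp
        · simp
        · simp only [h]; decide
      · have h1 := (c3 v).1 h
        rw [hP3] at h1
        obtain ⟨y, z, t, h1, h2, h3, h4, h5, h6⟩ := h1
        exact hthree (v, 0) (y, 0) (z, 0) (t, 0) (by simp [h1]) (by simp [h2]) (by simp [h3])
          (Or.inl ⟨rfl, rfl, h4⟩) (Or.inl ⟨rfl, rfl, h5⟩) (Or.inl ⟨rfl, rfl, h6⟩)
    · obtain ⟨a, b, c, h1, h2, h3, h4, h5, h6⟩ := fib_three (cls v) i hi
      exact hthree (v, i) (v, a) (v, b) (v, c) (by simp [h1]) (by simp [h2]) (by simp [h3])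
        (Or.inr ⟨rfl, h4⟩) (Or.inr ⟨rfl, h5⟩) (Or.inr ⟨rfl, h6⟩)
  obtain ⟨c, hc, htwo⟩ := two (V × Fin 12) (GG G cls) (Δ + 12) hBG hdeg
  refine ⟨fun v => c (v, 0), hc.comp (by fun_prop), ?_, ?_⟩
  · intro x hx
    have hx1 : x ∈ P1 := by rw [hP1]; exact hx
    obtain ⟨⟨y, i⟩, ⟨z, j⟩, h1, h2, h3, -, -, h4, h5⟩ := htwo (x, 0)
    by_contra hcon
    push Not at hcon
    have hno : ∀ w k, (GG G cls).Adj (x, 0) (w, k) → c (w, k) ≠ c (x, 0) →
        w = x ∧ fib (cls x) 0 k = true := by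
      intro w k hw hc'
      rcases hw with ⟨_, hk, hw⟩ | ⟨hw, hk⟩
      · simp only at hk hw
        subst hk
        exact absurd (hcon w hw) hc'
      · exact ⟨hw.symm, hk⟩
    obtain ⟨rfl, hi⟩ := hno y i h2 h4
    obtain ⟨rfl, hj⟩ := hno z j h3 h5
    have hij : i ≠ j := fun h => h1 (by rw [h])
    have hc' : cls z = 0 ∨ cls z = 1 ∨ cls z = 2 ∨ cls z = 3 := by
      generalize cls z = d
      revert d
      decide
    rcases hc' with h | h | h | h
    · exact c0 z hx1 h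
    · rw [h, fib_one] at hi hj
      have hg : c (z, 2) ≠ c (z, 5) := by
        refine gadget (fun k => c (z, k)) fun k hk => ?_
        obtain ⟨⟨s, k1⟩, ⟨t, k2⟩, e1, e2, e3, -, -, e4, e5⟩ := htwo (z, k)
        have hno' : ∀ w l, (GG G cls).Adj (z, k) (w, l) → w = z ∧ fib 1 k l = true := by
          intro w l hw
          rcases hw with ⟨hk', _, _⟩ | ⟨hw, hl⟩
          · exact absurd hk' hk
          · simp only [h] at hl
            exact ⟨hw.symm, hl⟩
        obtain ⟨rfl, q1⟩ := hno' s k1 e2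
        obtain ⟨rfl, q2⟩ := hno' t k2 e3
        exact ⟨k1, k2, fun h => e1 (by rw [h]), q1, q2, e4, e5⟩
      have hb : ∀ a b d : Bool, a ≠ d → b ≠ d → a = b := by decide
      rcases hi with rfl | rfl <;> rcases hj with rfl | rfl
      · exact hij rfl
      · exact hg (hb _ _ _ h4 h5)
      · exact hg (hb _ _ _ h5 h4)
      · exact hij rfl
    · rw [h, fib_two] at hi hj
      exact hij (hi.trans hj.symm)
    · rw [h, fib_zero] at hi
      exact Bool.false_ne_true hi
  · intro x hx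
    have hx3 : cls x = 3 := (c3 x).2 (by rw [hP3]; exact hx)
    obtain ⟨⟨y, i⟩, ⟨z, j⟩, h1, h2, h3, -, -, h4, h5⟩ := htwo (x, 0)
    have hno : ∀ w k, (GG G cls).Adj (x, 0) (w, k) → k = 0 ∧ G.Adj x w := by
      intro w k hw
      rcases hw with ⟨_, hk, hw⟩ | ⟨hw, hk⟩
      · exact ⟨hk, hw⟩
      · simp only [hx3, fib_zero] at hk
        exact absurd hk Bool.false_ne_true
    obtain ⟨rfl, hy⟩ := hno y i h2
    obtain ⟨rfl, hz⟩ := hno z j h3
    exact ⟨y, z, fun h => h1 (by rw [h]), hy, hz, mem_univ _, mem_univ _, h4, h5⟩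

end Pool.Agent.H24U
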