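import Pool.Agent.H24U.Main
import Pool.Agent.H24U.Fin
import Pool.Agent.H24U.For
import Pool.Agent.H24U.Cell
import Pool.Agent.H24U.Deg
import Pool.Agent.H24U.Core

/-!
# Borel graphs of bounded degree with minimal degree at least three

Every such graph has a Borel colouring with two colours in which every vertex has at least two
neighbours of the other colour.
-/

set_option autoImplicit false

namespace Pool.Agent.H24U

open Pool.Agent.Helper611.UF

theorem two : S_TWO := by
  have hQ : S_Q := Q.main (Count.main Mom.main) Tree.main (Ray.main enum ex sel)
  have hVOR : S_VOR := Vor.main enum ex sel reach ball mis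
  have hCELL : H24U.S_CELL := H24U.Cell.main enum ex reach ball hVOR ConC.main H24U.Deg.main hQ
  have hFOR : H24U.S_FOR := H24U.For.main enum ex reach path
  have hEXT : S_EXT := Ext.main enum ex sel inf reach
  have hCORE : H24U.S_CORE := H24U.Core.main enum ex ball mis path
  have hFIN : H24U.S_FIN := H24U.Fin.main path enum ex sel reach
  have hCLOSE : S_CLOSE := Close.main enum col
  exact H24U.Main.main enum ex hCLOSE hFIN hFOR hCELL hEXT hCORE

end Pool.Agent.H24U
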